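import Pool.Agent.Helper66_D1.Stmts

/-!
# Squad PP, part D1, module MCD: the Mackey formula for weights
-/

open scoped BigOperators

noncomputable section

namespace Pool.Agent.PP.D1.H26

open Pool.Agent.PP Pool.Agent.Helper51_AWC Pool.Agent.Helper79_WRA

section sums

variable {F : Type} [Field F] {G : Type} [Group G] {W : Type} [AddCommGroup W] [Module F W]

/-- right translation of a sum over a set stable under `P` -/
theorem sum_right [Fintype G] (P : Subgroup G) (X : Finset G) (hX : ∀ g ∈ X, ∀ p ∈ P, g * p ∈ X)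
    (f : G → W) (p : G) (hp : p ∈ P) : ∑ g ∈ X, f (g * p) = ∑ g ∈ X, f g := by
  classical
  refine Finset.sum_bij' (fun g _ => g * p) (fun g _ => g * p⁻¹) (fun g hg => hX g hg p hp)
    (fun g hg => hX g hg _ (P.inv_mem hp)) (fun g _ => by simp) (fun g _ => by simp)
    (fun g _ => rfl)

/-- left translation of a sum over a set stable under `P` -/
theorem sum_left [Fintype G] (P : Subgroup G) (X : Finset G) (hX : ∀ g ∈ X, ∀ p ∈ P, p * g ∈ X)
    (f : G → W) (p : G) (hp : p ∈ P) : ∑ g ∈ X, f (p * g) = ∑ g ∈ X, f g := by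
  classical
  refine Finset.sum_bij' (fun g _ => p * g) (fun g _ => p⁻¹ * g) (fun g hg => hX g hg p hp)
    (fun g hg => hX g hg _ (P.inv_mem hp)) (fun g _ => by simp) (fun g _ => by simp)
    (fun g _ => rfl)

/-- two systems of weights give the same sum of a right invariant function -/
theorem weights_eq [Fintype G] (P : Subgroup G) [Fintype P] (X : Finset G)
    (hX : ∀ g ∈ X, ∀ p ∈ P, g * p ∈ X) (c c' : G → F)
    (hc : ∀ g ∈ X, ∑ p : P, c (g * p) = 1) (hc' : ∀ g ∈ X, ∑ p : P, c' (g * p) = 1)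
    (h : G → W) (hh : ∀ g ∈ X, ∀ p ∈ P, h (g * p) = h g) :
    ∑ g ∈ X, c g • h g = ∑ g ∈ X, c' g • h g := by
  have e1 : ∀ g ∈ X, c g • h g = ∑ p : P, (c g * c' (g * p)) • h g := by
    intro g hg
    rw [← Finset.sum_smul, ← Finset.mul_sum, hc' g hg, mul_one]
  have e2 : ∀ g ∈ X, ∑ p : P, (c (g * (p : G)⁻¹) * c' g) • h g = c' g • h g := by
    intro g hg
    have e3 : ∑ p : P, c (g * (p : G)⁻¹) = 1 := by
      rw [← hc g hg]
      refine Fintype.sum_equiv (Equiv.inv P) _ _ (fun p => ?_)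
      simp
    rw [← Finset.sum_smul, ← Finset.sum_mul, e3, one_mul]
  rw [Finset.sum_congr rfl e1, Finset.sum_comm, ← Finset.sum_congr rfl e2, Finset.sum_comm (s := X)]
  apply Finset.sum_congr rfl
  intro p _
  have e4 := sum_right P X hX (fun g => (c (g * (p : G)⁻¹) * c' g) • h g) (p : G) p.2
  rw [← e4]
  apply Finset.sum_congr rfl
  intro g hg
  rw [hh g hg p p.2, mul_inv_cancel_right]

end sums

/-- an element which maps a nontrivial element of a group of prime order into the group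
normalises the group -/
theorem norm_prime {G : Type} [Group G] [Finite G] {ℓ : ℕ} [hℓ : Fact ℓ.Prime] {P : Subgroup G}
    (hP : Nat.card P = ℓ) {g x : G} (hx : x ∈ P) (hx1 : x ≠ 1) (hgx : g⁻¹ * x * g ∈ P) :
    g ∈ Subgroup.normalizer (P : Set G) := by
  have hsub : ∀ z ∈ P, g⁻¹ * z * g ∈ P := by
    intro z hz
    have hz' : (⟨z, hz⟩ : P) ∈ Subgroup.zpowers (⟨x, hx⟩ : P) := by
      apply mem_zpowers_of_prime_card hP
      intro h
      exact hx1 (congrArg (fun t : P => (t : G)) h)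
    obtain ⟨j, hj⟩ := Subgroup.mem_zpowers_iff.1 hz'
    have hj' : x ^ j = z := by
      have := congrArg (fun t : P => (t : G)) hj
      simpa using this
    have h1 : g⁻¹ * z * g = (g⁻¹ * x * g) ^ j := by
      rw [← hj']
      have h2 := conj_zpow (a := g⁻¹) (b := x) (i := j)
      rw [inv_inv] at h2
      exact h2.symm
    rw [h1]
    exact P.zpow_mem hgx j
  have h3 : g⁻¹ ∈ Subgroup.normalizer (P : Set G) := by
    rw [Subgroup.mem_normalizer_iff]
    intro z
    rw [inv_inv]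
    refine ⟨hsub z, fun hz => ?_⟩
    -- the map `z ↦ g⁻¹ z g` is injective on the finite set `P`, so surjective
    have hinj : Function.Injective (fun t : P => (⟨g⁻¹ * t * g, hsub t t.2⟩ : P)) := by
      intro s t hst
      have h4 : g⁻¹ * (s : G) * g = g⁻¹ * t * g := congrArg (fun t : P => (t : G)) hst
      exact Subtype.ext (mul_left_cancel (mul_right_cancel h4))
    obtain ⟨t, ht⟩ := (Finite.injective_iff_surjective.1 hinj) ⟨_, hz⟩
    have h4 : g⁻¹ * (t : G) * g = g⁻¹ * z * g := congrArg (fun t : P => (t : G)) ht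
    have h5 : (t : G) = z := mul_left_cancel (mul_right_cancel h4)
    rw [← h5]
    exact t.2
  have h4 := Subgroup.inv_mem _ h3
  rwa [inv_inv] at h4

/-- the action of `P × P` on `G` from both sides -/
@[reducible] def bact {G : Type} [Group G] (P : Subgroup G) : MulAction (P × P) G where
  smul k g := (k.1 : G) * g * (k.2 : G)⁻¹
  one_smul g := by
    change (1 : G) * g * (1 : G)⁻¹ = g
    simp
  mul_smul k k' g := by
    change ((k.1 * k'.1 : P) : G) * g * ((k.2 * k'.2 : P) : G)⁻¹ =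
      (k.1 : G) * ((k'.1 : G) * g * (k'.2 : G)⁻¹) * (k.2 : G)⁻¹
    push_cast
    group

theorem mcd (frw : FrwStmt) : McdStmt := by
  classical
  intro ℓ hℓ F _ G _ _ N P hPN hP V V' _ _ _ _ ρ ρ' c c₁ hc hc₁ φ hφ
  have := Fintype.ofFinite G
  have := Fintype.ofFinite P
  obtain ⟨h, hdef⟩ : ∃ h : G → (V →ₗ[F] V'), h = fun g => ρ' g ∘ₗ φ ∘ₗ ρ g⁻¹ := ⟨_, rfl⟩
  have hh : ∀ g : G, ∀ p ∈ P, h (g * p) = h g := by
    intro g p hp
    ext v
    rw [hdef]
    simp only [LinearMap.comp_apply]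
    rw [mul_inv_rev, map_mul, map_mul, Module.End.mul_apply, Module.End.mul_apply,
      hφ _ (P.inv_mem hp)]
    rw [← Module.End.mul_apply (ρ' p), ← map_mul, mul_inv_cancel, map_one, Module.End.one_apply]
  have hhl : ∀ p g : G, ρ' p ∘ₗ h g ∘ₗ ρ p⁻¹ = h (p * g) := by
    intro p g
    ext v
    rw [hdef]
    simp only [LinearMap.comp_apply]
    rw [mul_inv_rev, map_mul, map_mul, Module.End.mul_apply, Module.End.mul_apply]
  have hPn : P ≤ Subgroup.normalizer (P : Set G) := Subgroup.le_normalizer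
  obtain ⟨X, hXdef⟩ : ∃ X : Finset G, X = Finset.univ.filter
      (fun g : G => g ∈ N ∧ g ∉ Subgroup.normalizer (P : Set G)) := ⟨_, rfl⟩
  obtain ⟨X₁, hX₁def⟩ : ∃ X₁ : Finset G, X₁ = Finset.univ.filter
      (fun g : G => g ∈ N ⊓ Subgroup.normalizer (P : Set G)) := ⟨_, rfl⟩
  have hXm : ∀ g, g ∈ X ↔ g ∈ N ∧ g ∉ Subgroup.normalizer (P : Set G) := by
    intro g
    rw [hXdef, Finset.mem_filter]
    simp
  have hX₁m : ∀ g, g ∈ X₁ ↔ g ∈ N ⊓ Subgroup.normalizer (P : Set G) := by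
    intro g
    rw [hX₁def, Finset.mem_filter]
    simp
  have hXr : ∀ g ∈ X, ∀ p ∈ P, g * p ∈ X := by
    intro g hg p hp
    rw [hXm] at hg ⊢
    exact ⟨N.mul_mem hg.1 (hPN hp), fun h1 => hg.2
      ((Subgroup.mul_mem_cancel_right _ (hPn hp)).1 h1)⟩
  have hXl : ∀ g ∈ X, ∀ p ∈ P, p * g ∈ X := by
    intro g hg p hp
    rw [hXm] at hg ⊢
    exact ⟨N.mul_mem (hPN hp) hg.1, fun h1 => hg.2
      ((Subgroup.mul_mem_cancel_left _ (hPn hp)).1 h1)⟩
  have hX₁r : ∀ g ∈ X₁, ∀ p ∈ P, g * p ∈ X₁ := by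
    intro g hg p hp
    rw [hX₁m] at hg ⊢
    exact Subgroup.mul_mem _ hg ⟨hPN hp, hPn hp⟩
  have hcs : ∀ g ∈ N, ∑ p : P, c (g * p) = 1 := by
    intro g hg
    have h1 := hc.sum g hg
    rwa [finsum_eq_sum_of_fintype] at h1
  have hc₁s : ∀ g ∈ X₁, ∑ p : P, c₁ (g * p) = 1 := by
    intro g hg
    have h1 := hc₁.sum g ((hX₁m g).1 hg)
    rwa [finsum_eq_sum_of_fintype] at h1
  -- the two parts of the trace
  have hspl : trW c ρ ρ' φ = ∑ g ∈ X₁, c g • h g + ∑ g ∈ X, c g • h g := by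
    rw [trW, finsum_eq_sum_of_fintype]
    have hdis : Disjoint X₁ X := by
      rw [Finset.disjoint_left]
      intro g h1 h2
      exact ((hXm g).1 h2).2 ((hX₁m g).1 h1).2
    rw [← Finset.sum_union hdis]
    symm
    rw [hdef]
    apply Finset.sum_subset (Finset.subset_univ _)
    intro g _ hg
    have h3 : g ∉ N := by
      intro h4
      apply hg
      rw [Finset.mem_union, hXm, hX₁m]
      by_cases h5 : g ∈ Subgroup.normalizer (P : Set G)
      · exact Or.inl ⟨h4, h5⟩
      · exact Or.inr ⟨h4, h5⟩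
    rw [hc.supp g h3, zero_smul]
  have h1st : ∑ g ∈ X₁, c g • h g = trW c₁ ρ ρ' φ := by
    rw [weights_eq P X₁ hX₁r c c₁ (fun g hg => hcs g ((hX₁m g).1 hg).1) hc₁s h
      (fun g _ p hp => hh g p hp), trW, finsum_eq_sum_of_fintype, hdef]
    apply Finset.sum_subset (Finset.subset_univ _)
    intro g _ hg
    rw [hc₁.supp g (fun h3 => hg ((hX₁m g).2 h3)), zero_smul]
  -- representatives of the double cosets
  obtain ⟨d, hd0, hd1⟩ : ∃ d : G → F, (∀ g, g ∉ X → d g = 0) ∧
      ∀ g ∈ X, ∑ k : P × P, d ((k.1 : G) * g * (k.2 : G)⁻¹) = 1 := by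
    obtain ⟨d, h1, h2⟩ := @frw F _ (P × P) G _ _ _ (bact P) (X : Set G)
      (fun k g hg => by
        rw [Finset.mem_coe] at hg ⊢
        exact hXr _ (hXl g hg _ k.1.2) _ (P.inv_mem k.2.2))
      (fun k g hg hkg => by
        rw [Finset.mem_coe] at hg
        have h3 : (k.1 : G) * g * (k.2 : G)⁻¹ = g := hkg
        have h4 : g⁻¹ * (k.1 : G) * g = k.2 := by
          have h5 : (k.1 : G) * g = g * k.2 := mul_inv_eq_iff_eq_mul.1 h3
          rw [mul_assoc, h5, inv_mul_cancel_left]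
        have h6 : (k.1 : G) = 1 := by
          by_contra h7
          exact ((hXm g).1 hg).2 (norm_prime hP k.1.2 h7 (by rw [h4]; exact k.2.2))
        have h8 : (k.2 : G) = 1 := by
          rw [← h4, h6]
          group
        exact Prod.ext (Subtype.ext h6) (Subtype.ext h8))
    refine ⟨d, fun g hg => h1 g (by rwa [Finset.mem_coe]), fun g hg => ?_⟩
    have h3 := h2 g (by rwa [Finset.mem_coe])
    rw [finsum_eq_sum_of_fintype] at h3
    exact h3
  refine ⟨∑ g ∈ X, d g • h g, ?_⟩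
  rw [hspl, h1st]
  congr 1
  -- the trace from `1` to `P`
  have htr : trP ρ ρ' P (∑ g ∈ X, d g • h g) =
      ∑ g ∈ X, (∑ p : P, d ((p : G)⁻¹ * g)) • h g := by
    rw [trP, finsum_eq_sum_of_fintype]
    have e1 : ∀ p : P, ρ' p ∘ₗ (∑ g ∈ X, d g • h g) ∘ₗ ρ (p : G)⁻¹ =
        ∑ g ∈ X, d ((p : G)⁻¹ * g) • h g := by
      intro p
      have e2 : ρ' p ∘ₗ (∑ g ∈ X, d g • h g) ∘ₗ ρ (p : G)⁻¹ =
          ∑ g ∈ X, d g • h ((p : G) * g) := by
        ext v
        rw [LinearMap.comp_apply, LinearMap.comp_apply, LinearMap.sum_apply, map_sum,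
          LinearMap.sum_apply]
        apply Finset.sum_congr rfl
        intro g _
        rw [LinearMap.smul_apply, map_smul, LinearMap.smul_apply, ← hhl]
        rfl
      rw [e2, ← sum_left P X hXl (fun g => d ((p : G)⁻¹ * g) • h g) (p : G) p.2]
      apply Finset.sum_congr rfl
      intro g _
      rw [inv_mul_cancel_left]
    rw [Finset.sum_congr rfl (fun p _ => e1 p), Finset.sum_comm]
    apply Finset.sum_congr rfl
    intro g _
    rw [Finset.sum_smul]
  rw [htr]
  refine weights_eq P X hXr c _ (fun g hg => hcs g ((hXm g).1 hg).1) (fun g hg => ?_) h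
    (fun g _ p hp => hh g p hp)
  rw [← hd1 g hg, Fintype.sum_prod_type, Finset.sum_comm]
  refine Fintype.sum_equiv (Equiv.inv P) _ _ (fun q => ?_)
  refine Fintype.sum_equiv (Equiv.inv P) _ _ (fun p => ?_)
  simp [mul_assoc]

end Pool.Agent.PP.D1.H26
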