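import Pool.Agent.Helper66_D1.Stmts
import Pool.Agent.Helper5_CY.Ebr

/-!
# Squad PP, part D1, module EBV: a class function acts on `V^P / (∑ P) V` like its Brauer image
-/

open scoped BigOperators

noncomputable section

namespace Pool.Agent.PP.D1.H26

open Pool.Agent.PP Pool.Agent.Helper51_AWC Pool.Agent.Helper79_WRA

/-- an element commuting with one nontrivial element of a group of prime order commutes with the
group -/
theorem cent_prime {G : Type} [Group G] {ℓ : ℕ} [hℓ : Fact ℓ.Prime] {P : Subgroup G}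
    (hP : Nat.card P = ℓ) {g x : G} (hx : x ∈ P) (hx1 : x ≠ 1) (hgx : g * x = x * g) :
    g ∈ Subgroup.centralizer (P : Set G) := by
  rw [Subgroup.mem_centralizer_iff]
  intro z hz
  have hz' : (⟨z, hz⟩ : P) ∈ Subgroup.zpowers (⟨x, hx⟩ : P) := by
    apply mem_zpowers_of_prime_card hP
    intro h
    exact hx1 (congrArg (fun t : P => (t : G)) h)
  obtain ⟨j, hj⟩ := Subgroup.mem_zpowers_iff.1 hz'
  have hj' : x ^ j = z := by
    have := congrArg (fun t : P => (t : G)) hj
    simpa using this
  have hc : Commute g x := hgx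
  rw [← hj']
  exact (hc.zpow_right j).eq.symm

theorem ebv : EbvStmt := by
  classical
  intro ℓ hℓ F _ G _ _ P hP V _ _ ρ a ha v hv
  have := Fintype.ofFinite G
  have := Fintype.ofFinite P
  have h0 : evV ρ a v - evV ρ (br P a) v =
      ∑ g ∈ Finset.univ.filter (fun g : G => g ∉ Subgroup.centralizer (P : Set G)),
        a g • ρ g v := by
    rw [evV, evV, finsum_eq_sum_of_fintype, finsum_eq_sum_of_fintype, LinearMap.sum_apply,
      LinearMap.sum_apply, ← Finset.sum_sub_distrib, Finset.sum_filter]
    apply Finset.sum_congr rfl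
    intro g _
    rw [LinearMap.smul_apply, LinearMap.smul_apply]
    by_cases h : g ∈ Subgroup.centralizer (P : Set G)
    · rw [if_neg (not_not.2 h)]
      unfold br
      rw [if_pos h, sub_self]
    · rw [if_pos h]
      unfold br
      rw [if_neg h, zero_smul, sub_zero]
  rw [h0]
  apply CY.H5.orb_sum P
  · intro g hg p hp
    rw [Finset.mem_filter] at hg ⊢
    refine ⟨Finset.mem_univ _, fun h => hg.2 ?_⟩
    rw [Subgroup.mem_centralizer_iff] at h ⊢
    intro z hz
    have hz2 : p * z * p⁻¹ ∈ P := P.mul_mem (P.mul_mem hp hz) (P.inv_mem hp)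
    have h2 := h _ hz2
    have h3 : p * (z * g) * p⁻¹ = p * (g * z) * p⁻¹ := by
      calc p * (z * g) * p⁻¹ = p * z * p⁻¹ * (p * g * p⁻¹) := by group
        _ = p * g * p⁻¹ * (p * z * p⁻¹) := h2
        _ = p * (g * z) * p⁻¹ := by group
    exact mul_left_cancel (mul_right_cancel h3)
  · intro g hg p hp hpg
    rw [Finset.mem_filter] at hg
    by_contra hp1
    apply hg.2
    refine cent_prime hP hp hp1 ?_
    exact (mul_inv_eq_iff_eq_mul.1 hpg).symm
  · intro g _
    refine ⟨a g • ρ g v, ?_⟩
    rw [finsum_eq_sum_of_fintype, LinearMap.sum_apply]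
    apply Finset.sum_congr rfl
    intro p _
    have h2 : ρ (p : G)⁻¹ v = v := hv _ (P.inv_mem p.2)
    rw [ha p p.2 g, map_mul, map_mul, Module.End.mul_apply, Module.End.mul_apply, h2, map_smul]

end Pool.Agent.PP.D1.H26
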